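import Pool.Agent.H488.M.Ins

/-!
# `ζ(3) π^k` and `γ π^k` over fields generated by exponentials: one exception at every scale

By Lindemann's theorem `ζ(3)` and `ζ(3) / π³` are not both algebraic. We compare polynomial
relations of such numbers over a field which is generated by exponentials of algebraic numbers.

Let `θ_1, …, θ_k, η_1, …, η_n` be complex numbers with a measure of algebraic independence which
is polynomial in the height (`HasMeasure`), for instance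

* the exponentials of algebraic numbers which are linearly independent over `ℚ`, or
* `π, e^(β_1), …, e^(β_n)`, where the algebraic numbers `β_i` and their complex conjugates are
  together linearly independent over `ℚ`.

Let `t` be ANY nonzero complex number, for instance `ζ(3)` or Euler's constant. We study the numbers
`t θ^m`, `m ∈ ℤ^k`, over the field `ℚ(η_1, …, η_n)`. Such a number `u` is near at the scale `H` if
there is a nonzero integer polynomial `P` of degree at most `d` in every variable, with coefficients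
at most `H`, and `|P(u, η_1, …, η_n)| ≤ H^(-w)`.

* Two numbers `t θ^m`, `t θ^m'`, `m ≠ m'`, have a joint measure over `ℚ(η)`: for nonzero `P`, `Q` of
  height at most `H` one has `max (|P(t θ^m, η)|, |Q(t θ^m', η)|) ≥ c H^(-κ)`. The exponent `κ` does
  not depend on `t`. The same holds for `m = m'` if `P` and `Q` are irreducible and not associated.
* The dichotomy of scales. Every large scale `H` at which one of the numbers, `u`, is near is
  followed by a scale `Z ≥ H` such that no other number is near between `H` and `Z` and no number at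
  all is near between `Z` and `Z^A`, unless `u` is algebraic over `ℚ(η)`, and then no other number is
  near at any scale after `H`.
* The zero-one law: one of the numbers is algebraic of degree at most `d` over `ℚ(η)` if and only if
  at every large scale at least one of them is near.

The proof: elimination of `t` by resultants; the height of a factor of a polynomial in several
variables; and the fact that a common irreducible factor of the polynomials `P(T X^m, Y)` and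
`Q(T X^m', Y)` is a power of `T` times a polynomial which does not contain `T`, since factors of
homogeneous polynomials are homogeneous. The measures are taken from the quantitative
Lindemann-Weierstrass theorem in `Pool.Agent.H596.Q` and from the transcendence measure of `π` in
the library.
-/

set_option autoImplicit false

namespace Pool.Agent.Results.MP_e48a95_nt.ScalesOverExponentialFields

/-- the nonzero integer polynomials in the variables `σ`, of degree at most `d` in every variable,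
with coefficients of absolute value at most `H` -/
def Poly (σ : Type) (d : ℕ) (H : ℝ) : Set (MvPolynomial σ ℤ) :=
  {P | P ≠ 0 ∧ (∀ i, P.degreeOf i ≤ d) ∧ ∀ m, |((P.coeff m : ℤ) : ℝ)| ≤ H}

/-- The numbers `x i` have a measure of algebraic independence, polynomial in the height for every
degree. -/
def HasMeasure {σ : Type} (x : σ → ℂ) : Prop :=
  ∀ d : ℕ, ∃ κ : ℕ, ∃ c : ℝ, 0 < c ∧ ∀ H : ℝ, 1 ≤ H → ∀ P ∈ Poly σ d H,
    c / H ^ κ ≤ ‖MvPolynomial.aeval x P‖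

/-- the value `P(u, η_1, …, η_n)`; the variable `none` stands for `u` -/
noncomputable def value {n : ℕ} (η : Fin n → ℂ) (u : ℂ) (P : MvPolynomial (Option (Fin n)) ℤ) : ℂ :=
  MvPolynomial.aeval (fun o : Option (Fin n) => o.elim u η) P

/-- the number `t θ^m` -/
noncomputable def num {k : ℕ} (t : ℂ) (θ : Fin k → ℂ) (m : Fin k → ℤ) : ℂ := t * ∏ i, θ i ^ m i

/-- `u` is near at the scale `H` -/
def Near {n : ℕ} (η : Fin n → ℂ) (d w : ℕ) (H : ℝ) (u : ℂ) : Prop :=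
  ∃ P ∈ Poly (Option (Fin n)) d H, ‖value η u P‖ ≤ 1 / H ^ w

/-- `u` is a zero of a nonzero polynomial of degree at most `d` in every variable -/
def Alg {n : ℕ} (η : Fin n → ℂ) (d : ℕ) (u : ℂ) : Prop :=
  ∃ P : MvPolynomial (Option (Fin n)) ℤ, P ≠ 0 ∧ (∀ o, P.degreeOf o ≤ d) ∧ value η u P = 0

/-- the exponents of absolute value at most `M` -/
def Box (k M : ℕ) : Set (Fin k → ℤ) := {m | ∀ i, |m i| ≤ M}

open Pool.Agent.H488.M (Bd Meas)

lemma hasMeasure_iff {σ : Type} (x : σ → ℂ) : HasMeasure x ↔ Meas x := by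
  constructor
  · intro h d
    obtain ⟨κ, c, hc, h⟩ := h d
    refine ⟨κ, c, hc, fun P hP H hH hB => ?_⟩
    have h1 := h H hH P ⟨hP, hB.1, hB.2⟩
    rwa [div_le_iff₀ (by positivity), mul_comm] at h1
  · intro h d
    obtain ⟨κ, c, hc, h⟩ := h d
    refine ⟨κ, c, hc, fun H hH P hP => ?_⟩
    have h1 := h P hP.1 H hH ⟨hP.2.1, hP.2.2⟩
    rwa [div_le_iff₀ (by positivity), mul_comm]

lemma near_iff {n : ℕ} (η : Fin n → ℂ) (d w : ℕ) (H : ℝ) (u : ℂ) :
    Near η d w H u ↔ Pool.Agent.H488.M.Near η d w H u := by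
  constructor
  · rintro ⟨P, hP, h⟩
    exact ⟨P, hP.1, ⟨hP.2.1, hP.2.2⟩, h⟩
  · rintro ⟨P, hP, hB, h⟩
    exact ⟨P, ⟨hP, hB.1, hB.2⟩, h⟩

/-- `ζ(3)` -/
noncomputable def zeta3 : ℂ := ((∑' n : ℕ, 1 / ((n : ℝ) + 1) ^ 3 : ℝ) : ℂ)

lemma zeta3_ne_zero : zeta3 ≠ 0 := by
  unfold zeta3
  rw [Complex.ofReal_ne_zero]
  have h1 : Summable fun n : ℕ => 1 / ((n : ℝ) + 1) ^ 3 := by
    have := (summable_nat_add_iff 1).2 (Real.summable_one_div_nat_pow (p := 3) |>.2 (by norm_num))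
    simpa using this
  exact (h1.tsum_pos (fun n => by positivity) 0 (by norm_num)).ne'

/-- the joint measure and the gap principle -/
theorem joint {k n : ℕ} (θ : Fin k → ℂ) (η : Fin n → ℂ) (h : HasMeasure (Sum.elim θ η))
    (d M : ℕ) : ∃ κ : ℕ, ∀ r R : ℝ, 0 < r → ∃ c : ℝ, 0 < c ∧ ∀ t : ℂ, r ≤ ‖t‖ → ‖t‖ ≤ R →
      ∀ m ∈ Box k M, ∀ m' ∈ Box k M, ∀ H : ℝ, 1 ≤ H →
      ∀ P ∈ Poly (Option (Fin n)) d H, ∀ Q ∈ Poly (Option (Fin n)) d H,
        (m ≠ m' ∨ Irreducible P ∧ Irreducible Q ∧ ¬ Associated P Q) →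
        c / H ^ κ ≤ max ‖value η (num t θ m) P‖ ‖value η (num t θ m') Q‖ := by
  rw [hasMeasure_iff] at h
  have hη : Meas η := by
    have := h.comp (Sum.inr : Fin n → Fin k ⊕ Fin n) Sum.inr_injective
    exact this
  obtain ⟨κ₁, h₁⟩ := Pool.Agent.H488.M.joint θ η h d M
  obtain ⟨κ₂, h₂⟩ := Pool.Agent.H488.M.sep_pt η hη d
  refine ⟨κ₁ + κ₂, fun r R hr => ?_⟩
  obtain ⟨c₁, hc₁, h₁⟩ := h₁ R r hr
  obtain ⟨T', hT'⟩ := Pool.Agent.H488.M.um_le θ M R
  obtain ⟨c₂, hc₂, h₂⟩ := h₂ T'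
  refine ⟨min c₁ c₂, lt_min hc₁ hc₂, fun t ht1 ht2 m hm m' hm' H hH P hP Q hQ hne => ?_⟩
  have hmax : 0 ≤ max ‖value η (num t θ m) P‖ ‖value η (num t θ m') Q‖ :=
    (norm_nonneg _).trans (le_max_left _ _)
  rw [div_le_iff₀ (by positivity)]
  have hup : ∀ κ : ℕ, κ ≤ κ₁ + κ₂ → H ^ κ * max ‖value η (num t θ m) P‖ ‖value η (num t θ m') Q‖ ≤
      max ‖value η (num t θ m) P‖ ‖value η (num t θ m') Q‖ * H ^ (κ₁ + κ₂) := by
    intro κ hκ
    rw [mul_comm]
    exact mul_le_mul_of_nonneg_left (pow_le_pow_right₀ hH hκ) hmax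
  by_cases hmm : m = m'
  · subst hmm
    rcases hne with h0 | ⟨hP1, hQ1, hPQ⟩
    · exact absurd rfl h0
    · have h3 := h₂ (num t θ m) (hT' t ht2 m hm) P Q hP1 hQ1 hPQ H hH ⟨hP.2.1, hP.2.2⟩
        ⟨hQ.2.1, hQ.2.2⟩
      exact (min_le_right _ _).trans (h3.trans (hup κ₂ (Nat.le_add_left _ _)))
  · have h3 := h₁ t ht1 ht2 m m' hm hm' hmm P Q hP.1 hQ.1 H hH ⟨hP.2.1, hP.2.2⟩ ⟨hQ.2.1, hQ.2.2⟩
    exact (min_le_left _ _).trans (h3.trans (hup κ₁ (Nat.le_add_right _ _)))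

/-- the dichotomy and the zero-one law -/
theorem dich {k n : ℕ} (θ : Fin k → ℂ) (η : Fin n → ℂ) (h : HasMeasure (Sum.elim θ η))
    (d M A : ℕ) (hA : 2 ≤ A) : ∃ w : ℕ, ∀ r R : ℝ, 0 < r → ∃ H₀ : ℝ, ∀ t : ℂ, r ≤ ‖t‖ → ‖t‖ ≤ R →
      (∀ m ∈ Box k M, ∀ H : ℝ, H₀ ≤ H → Near η d w H (num t θ m) →
        (Alg η d (num t θ m) ∧ ∀ Y : ℝ, H ≤ Y → ∀ m' ∈ Box k M, m' ≠ m →
          ¬ Near η d w Y (num t θ m')) ∨
        ∃ Z : ℝ, H ≤ Z ∧
          (∀ Y : ℝ, H ≤ Y → Y ≤ Z → ∀ m' ∈ Box k M, m' ≠ m → ¬ Near η d w Y (num t θ m')) ∧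
          ∀ Y : ℝ, Z < Y → Y ≤ Z ^ A → ∀ m' ∈ Box k M, ¬ Near η d w Y (num t θ m')) ∧
      ((∃ m ∈ Box k M, Alg η d (num t θ m)) ↔
        ∃ H₁ : ℝ, ∀ H : ℝ, H₁ ≤ H → ∃ m ∈ Box k M, Near η d w H (num t θ m)) := by
  obtain ⟨w, hw⟩ := Pool.Agent.H488.M.dich θ η ((hasMeasure_iff _).1 h) d M A
  refine ⟨w, fun r R hr => ?_⟩
  obtain ⟨H₀, hH₀, hw⟩ := hw R r hr
  refine ⟨H₀, fun t ht1 ht2 => ?_⟩
  have hd : ∀ m ∈ Box k M, ∀ H : ℝ, H₀ ≤ H → Near η d w H (num t θ m) →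
        (Alg η d (num t θ m) ∧ ∀ Y : ℝ, H ≤ Y → ∀ m' ∈ Box k M, m' ≠ m →
          ¬ Near η d w Y (num t θ m')) ∨
        ∃ Z : ℝ, H ≤ Z ∧
          (∀ Y : ℝ, H ≤ Y → Y ≤ Z → ∀ m' ∈ Box k M, m' ≠ m → ¬ Near η d w Y (num t θ m')) ∧
          ∀ Y : ℝ, Z < Y → Y ≤ Z ^ A → ∀ m' ∈ Box k M, ¬ Near η d w Y (num t θ m') := by
    intro m hm H hH hn
    simp only [near_iff] at hn ⊢
    exact hw t ht1 ht2 m hm H hH hn
  refine ⟨hd, ?_, ?_⟩
  · rintro ⟨m, hm, P, hP, hPd, hPv⟩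
    obtain ⟨h₁, hh₁⟩ : ∃ h₁ : ℝ, h₁ = ∑ s ∈ P.support, |((P.coeff s : ℤ) : ℝ)| := ⟨_, rfl⟩
    refine ⟨max 1 h₁, fun H hH => ⟨m, hm, P, ⟨hP, hPd, fun s => ?_⟩, ?_⟩⟩
    · refine le_trans ?_ ((le_max_right _ _).trans hH)
      rw [hh₁]
      by_cases hs : s ∈ P.support
      · exact Finset.single_le_sum (f := fun s => |((P.coeff s : ℤ) : ℝ)|)
          (fun _ _ => abs_nonneg _) hs
      · rw [MvPolynomial.notMem_support_iff.1 hs, Int.cast_zero, abs_zero]
        exact Finset.sum_nonneg fun _ _ => abs_nonneg _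
    · rw [hPv, norm_zero]
      have : 0 < H := by linarith [(le_max_left 1 h₁).trans hH]
      positivity
  · rintro ⟨H₁, h1⟩
    obtain ⟨H, hH⟩ : ∃ H : ℝ, H = max (max H₀ H₁) 2 := ⟨_, rfl⟩
    obtain ⟨m, hm, hn⟩ := h1 H (by rw [hH]; exact (le_max_right _ _).trans (le_max_left _ _))
    rcases hd m hm H (by rw [hH]; exact (le_max_left _ _).trans (le_max_left _ _)) hn with
      h2 | ⟨Z, hZ, -, h3⟩
    · exact ⟨m, hm, h2.1⟩
    · exfalso
      have hH2 : 2 ≤ H := by rw [hH]; exact le_max_right _ _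
      have hZ2 : 2 ≤ Z := hH2.trans hZ
      have hlt : Z < Z ^ A := by
        calc Z < Z ^ 2 := by nlinarith
          _ ≤ Z ^ A := pow_le_pow_right₀ (by linarith) hA
      have hHZ : H₁ ≤ Z ^ A := by
        have : H₁ ≤ H := by rw [hH]; exact (le_max_right _ _).trans (le_max_left _ _)
        linarith
      obtain ⟨m', hm', hn'⟩ := h1 (Z ^ A) hHZ
      exact h3 _ hlt le_rfl m' hm' hn'

/-- **`ζ(3)`, `ζ(3) / π³`, Euler's constant and fields generated by exponentials.** -/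
theorem result :
    -- (1) numbers with a measure of algebraic independence
    (∀ (n : ℕ) (α : Fin n → ℂ), (∀ i, IsAlgebraic ℚ (α i)) → LinearIndependent ℚ α →
      HasMeasure fun i => Complex.exp (α i)) ∧
    (∀ (n : ℕ) (β : Fin n → ℂ), (∀ i, IsAlgebraic ℚ (β i)) →
      LinearIndependent ℚ (Sum.elim β fun i => (starRingEnd ℂ) (β i)) →
      HasMeasure (Sum.elim (fun _ : Fin 1 => (Real.pi : ℂ)) fun i => Complex.exp (β i))) ∧
    (∀ (k n : ℕ) (θ : Fin k → ℂ) (η : Fin n → ℂ), HasMeasure (Sum.elim θ η) → ∀ d M : ℕ,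
      -- (2) the joint measure
      (∃ κ : ℕ, ∀ r R : ℝ, 0 < r → ∃ c : ℝ, 0 < c ∧ ∀ t : ℂ, r ≤ ‖t‖ → ‖t‖ ≤ R →
        ∀ m ∈ Box k M, ∀ m' ∈ Box k M, ∀ H : ℝ, 1 ≤ H →
        ∀ P ∈ Poly (Option (Fin n)) d H, ∀ Q ∈ Poly (Option (Fin n)) d H,
          (m ≠ m' ∨ Irreducible P ∧ Irreducible Q ∧ ¬ Associated P Q) →
          c / H ^ κ ≤ max ‖value η (num t θ m) P‖ ‖value η (num t θ m') Q‖) ∧
      -- (3) the dichotomy of scales and the zero-one law
      ∀ A : ℕ, 2 ≤ A → ∃ w : ℕ, ∀ r R : ℝ, 0 < r → ∃ H₀ : ℝ, ∀ t : ℂ, r ≤ ‖t‖ → ‖t‖ ≤ R →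
        (∀ m ∈ Box k M, ∀ H : ℝ, H₀ ≤ H → Near η d w H (num t θ m) →
          (Alg η d (num t θ m) ∧ ∀ Y : ℝ, H ≤ Y → ∀ m' ∈ Box k M, m' ≠ m →
            ¬ Near η d w Y (num t θ m')) ∨
          ∃ Z : ℝ, H ≤ Z ∧
            (∀ Y : ℝ, H ≤ Y → Y ≤ Z → ∀ m' ∈ Box k M, m' ≠ m → ¬ Near η d w Y (num t θ m')) ∧
            ∀ Y : ℝ, Z < Y → Y ≤ Z ^ A → ∀ m' ∈ Box k M, ¬ Near η d w Y (num t θ m')) ∧
        ((∃ m ∈ Box k M, Alg η d (num t θ m)) ↔
          ∃ H₁ : ℝ, ∀ H : ℝ, H₁ ≤ H → ∃ m ∈ Box k M, Near η d w H (num t θ m))) ∧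
    -- (4) `ζ(3)` and `ζ(3) / π³` over the field generated by `e^(β_1), …, e^(β_n)`
    (∀ (n : ℕ) (β : Fin n → ℂ), (∀ i, IsAlgebraic ℚ (β i)) →
      LinearIndependent ℚ (Sum.elim β fun i => (starRingEnd ℂ) (β i)) → ∀ d : ℕ,
      ∃ κ : ℕ, ∃ c : ℝ, 0 < c ∧ ∀ H : ℝ, 1 ≤ H →
        ∀ P ∈ Poly (Option (Fin n)) d H, ∀ Q ∈ Poly (Option (Fin n)) d H,
          c / H ^ κ ≤ max ‖value (fun i => Complex.exp (β i)) zeta3 P‖
            ‖value (fun i => Complex.exp (β i)) (zeta3 / (Real.pi : ℂ) ^ 3) Q‖) := by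
  refine ⟨fun n α hα hli => (hasMeasure_iff _).2 (Pool.Agent.H488.M.meas_exp α hα hli),
    fun n β hβ hli => (hasMeasure_iff _).2 (Pool.Agent.H488.M.meas_pi_exp β hβ hli),
    fun k n θ η h d M => ⟨joint θ η h d M, fun A hA => dich θ η h d M A hA⟩, ?_⟩
  intro n β hβ hli d
  obtain ⟨κ, h⟩ := joint (fun _ : Fin 1 => (Real.pi : ℂ)) (fun i => Complex.exp (β i))
    ((hasMeasure_iff _).2 (Pool.Agent.H488.M.meas_pi_exp β hβ hli)) d 3
  obtain ⟨c, hc, h⟩ := h ‖zeta3‖ ‖zeta3‖ (norm_pos_iff.2 zeta3_ne_zero)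
  refine ⟨κ, c, hc, fun H hH P hP Q hQ => ?_⟩
  have h1 := h zeta3 le_rfl le_rfl (fun _ => 0) (fun i => by simp) (fun _ => -3)
    (fun i => by norm_num) H hH P hP Q hQ (Or.inl (by
      intro h0
      have := congrFun h0 0
      norm_num at this))
  have e1 : num zeta3 (fun _ : Fin 1 => (Real.pi : ℂ)) (fun _ => 0) = zeta3 := by
    rw [num]; simp
  have e2 : num zeta3 (fun _ : Fin 1 => (Real.pi : ℂ)) (fun _ => -3) =
      zeta3 / (Real.pi : ℂ) ^ 3 := by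
    rw [num, Fin.prod_univ_one, zpow_neg, div_eq_mul_inv]
    rfl
  rwa [e1, e2] at h1

end Pool.Agent.Results.MP_e48a95_nt.ScalesOverExponentialFields
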